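import Pool.Agent.H112R2.Size
set_option autoImplicit false

/-! Bohr sets of the large spectrum inside iterated difference sets. -/

namespace N173.BR

open Finset H112
open scoped Pointwise

variable {G : Type*} [AddCommGroup G]

/-- `x` is a sum of `k` elements of `A` -/
def Sm (A : Finset G) (k : ℕ) (x : G) : Prop :=
  ∃ f : Fin k → G, (∀ i, f i ∈ A) ∧ x = ∑ i, f i

/-- `x` is a difference of two sums of `k` elements of `A` -/
def Df (A : Finset G) (k : ℕ) (x : G) : Prop :=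
  ∃ u v : G, Sm A k u ∧ Sm A k v ∧ x = u - v

theorem Sm.add {A : Finset G} {a b : ℕ} {x y : G} (hx : Sm A a x) (hy : Sm A b y) :
    Sm A (a + b) (x + y) := by
  obtain ⟨f, hf, rfl⟩ := hx
  obtain ⟨g, hg, rfl⟩ := hy
  refine ⟨Fin.append f g, ?_, ?_⟩
  · intro i
    refine Fin.addCases (fun i => ?_) (fun i => ?_) i
    · rw [Fin.append_left]; exact hf i
    · rw [Fin.append_right]; exact hg i
  · rw [Fin.sum_univ_add]
    simp [Fin.append_left, Fin.append_right]

/-- all elements of the support are `k`-fold sums -/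
def Sp (A : Finset G) (k : ℕ) (p : AddMonoidAlgebra ℝ G) : Prop :=
  ∀ x, p.coeff x ≠ 0 → Sm A k x

theorem Sp.mul {A : Finset G} {a b : ℕ} {p q : AddMonoidAlgebra ℝ G} (hp : Sp A a p)
    (hq : Sp A b q) : Sp A (a + b) (p * q) := by
  intro y hy
  rw [coeff_mul_apply] at hy
  obtain ⟨x, hx, hne⟩ := Finset.exists_ne_zero_of_sum_ne_zero hy
  have := (hp x (left_ne_zero_of_mul hne)).add (hq (y - x) (right_ne_zero_of_mul hne))
  simpa using this

theorem Sp.one (A : Finset G) : Sp A 0 (1 : AddMonoidAlgebra ℝ G) := by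
  classical
  intro x hx
  rw [AddMonoidAlgebra.one_def] at hx
  have hx0 : x = 0 := by
    by_contra h
    apply hx
    rw [AddMonoidAlgebra.coeff_single, Finsupp.single_apply, if_neg (Ne.symm h)]
  refine ⟨Fin.elim0, fun i => i.elim0, ?_⟩
  rw [hx0]; simp

theorem Sp.pow {A : Finset G} {a : ℕ} {p : AddMonoidAlgebra ℝ G} (hp : Sp A a p) (n : ℕ) :
    Sp A (n * a) (p ^ n) := by
  induction n with
  | zero => rw [pow_zero, zero_mul]; exact Sp.one A
  | succ n ih =>
    rw [pow_succ, Nat.succ_mul]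
    exact ih.mul hp

theorem Sp.of_support {A : Finset G} {p : AddMonoidAlgebra ℝ G} (h : p.coeff.support ⊆ A) :
    Sp A 1 p := by
  intro x hx
  refine ⟨fun _ => x, fun _ => h (Finsupp.mem_support_iff.2 hx), ?_⟩
  simp

theorem Df_of_mul {A : Finset G} {a : ℕ} {g : AddMonoidAlgebra ℝ G} (hg : Sp A a g)
    {x : G} (hx : (g * refl g).coeff x ≠ 0) : Df A a x := by
  rw [coeff_mul_apply] at hx
  obtain ⟨y, hy, hne⟩ := Finset.exists_ne_zero_of_sum_ne_zero hx
  have h1 := left_ne_zero_of_mul hne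
  have h2 := right_ne_zero_of_mul hne
  rw [refl_apply] at h2
  refine ⟨y, -(x - y), hg _ h1, hg _ h2, ?_⟩
  abel

/-- Size bound for the Bohr set of radius 1/6 of the large spectrum, and its place in the
iterated difference set. -/
theorem bohr_size2 [AddGroup.FG G] [DecidableEq G] {A : Finset G} (hA : A.Nonempty) {K : ℝ}
    (hK : ((A + A).card : ℝ) ≤ K * A.card) {p₁ p₂ : AddMonoidAlgebra ℝ G} (hp₁ : Law p₁)
    (hp₂ : Law p₂) (hs₁ : p₁.coeff.support ⊆ A) (hs₂ : p₂.coeff.support ⊆ A)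
    {D : ℝ} (hD : Real.log A.card - D ≤ H p₁) {n m : ℕ} (hn : 1 ≤ n) (hm : 1 ≤ m) {b : ℝ}
    (hb : H ((p₁ * p₂) ^ (2 * m * n)) ≤ (H p₁ + H p₂) / 2 + b)
    (h4 : (1 / 4 : ℝ) ^ m ≤ Real.exp (-(2 * b + 2 * Real.log K + 2 * D)) / 4) :
    (bohr {γ : G →+ UnitAddCircle | 1 / 2 ≤ ‖ft ((p₁ * p₂) ^ n) γ‖} (1 / 6)).Finite ∧
      ((bohr {γ : G →+ UnitAddCircle | 1 / 2 ≤ ‖ft ((p₁ * p₂) ^ n) γ‖} (1 / 6)).ncard : ℝ) ≤
        8 * A.card * Real.exp (2 * b + 2 * Real.log K + 2 * D) ∧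
      ∀ x ∈ bohr {γ : G →+ UnitAddCircle | 1 / 2 ≤ ‖ft ((p₁ * p₂) ^ n) γ‖} (1 / 6),
        Df A (1 + m * (n * (1 + 1))) x := by
  have hA0 : (0 : ℝ) < A.card := by exact_mod_cast hA.card_pos
  have hq : Law (p₁ * p₂) := hp₁.mul hp₂
  have hU : Law (U A) := law_U hA
  have hH := H_f_le hA hK hp₁ hp₂ hs₁ hD hn hm
  set r := (p₁ * p₂) ^ n with hr
  have hrl : Law r := hq.pow n
  set f := U A * refl (U A) * (r * refl r) ^ m with hf
  -- entropy of the middle term
  obtain ⟨e, he⟩ : ∃ e, m * n = e + 1 := ⟨m * n - 1, by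
    have : 1 ≤ m * n := Nat.mul_pos hm hn
    omega⟩
  have h1 : (H p₁ + H p₂) / 2 ≤ H ((p₁ * p₂) ^ (m * n)) := by
    have a1 : H p₁ ≤ H (p₁ * p₂) := H_le_mul hp₁ hp₂
    have a2 : H p₂ ≤ H (p₁ * p₂) := by rw [mul_comm]; exact H_le_mul hp₂ hp₁
    have a3 : H (p₁ * p₂) ≤ H ((p₁ * p₂) ^ (m * n)) := by
      rw [he, pow_succ']; exact H_le_mul hq (hq.pow e)
    linarith
  have h2 : (H p₁ + H p₂) / 2 ≤ Real.log A.card := by
    have a1 : H p₁ ≤ Real.log A.card := ent_le_log_card hp₁ hs₁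
    have a2 : H p₂ ≤ Real.log A.card := ent_le_log_card hp₂ hs₂
    linarith
  set c := 2 * b + 2 * Real.log K + 2 * D with hc
  have hHf : H f ≤ Real.log A.card + c := by linarith
  have hfg : f = (U A * r ^ m) * refl (U A * r ^ m) := by
    rw [hf, refl_mul, refl_pow r m, mul_pow]; ring
  have hf0 : Real.exp (-(Real.log A.card + c)) ≤ f.coeff 0 := by
    have h3 := exp_neg_le_coeff_zero (hU.mul (hrl.pow m))
    rw [← hfg] at h3
    exact (Real.exp_le_exp.2 (by linarith)).trans h3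
  have hexp : Real.exp (-(Real.log A.card + c)) = Real.exp (-c) / A.card := by
    rw [neg_add, Real.exp_add, Real.exp_neg, Real.exp_log hA0]
    field_simp
  rw [hexp] at hf0
  have hf0' : Real.exp (-c) ≤ f.coeff 0 * A.card := by
    rwa [div_le_iff₀ hA0] at hf0
  have hfpos : 0 < f.coeff 0 := lt_of_lt_of_le (by positivity) hf0
  have h44 : (1 / 4 : ℝ) ^ m ≤ f.coeff 0 * A.card / 4 := by
    refine h4.trans ?_
    linarith
  obtain ⟨hfin, hcard⟩ := bohr_finite (G := G) hA hrl (m := m) h44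
  have hkey := fg_case (G := G) hA hrl (m := m) h44
  refine ⟨hfin, ?_, ?_⟩
  · rw [← hf] at hcard
    set N := ((bohr {γ : G →+ UnitAddCircle | 1 / 2 ≤ ‖ft r γ‖} (1 / 6)).ncard : ℝ) with hN
    have hN0 : 0 ≤ N := Nat.cast_nonneg _
    have h5 : N * (Real.exp (-c) / A.card) ≤ 8 :=
      (mul_le_mul_of_nonneg_left hf0 hN0).trans hcard
    have h6 : Real.exp (-c) = 1 / Real.exp c := by rw [Real.exp_neg, one_div]
    rw [h6, div_div, mul_one_div, div_le_iff₀ (by positivity)] at h5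
    linarith
  · intro x hx
    have h7 := hkey x hx
    rw [← hf] at h7
    have h8 : f.coeff x ≠ 0 := by
      intro h0
      rw [h0] at h7
      linarith
    rw [hfg] at h8
    refine Df_of_mul ?_ h8
    refine (Sp.of_support size_support_U).mul (Sp.pow ?_ m)
    rw [hr]
    exact Sp.pow ((Sp.of_support hs₁).mul (Sp.of_support hs₂)) n

end N173.BR
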