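import Pool.Agent.H112R2.Final
import Pool.Agent.N173.BR.Supp
set_option autoImplicit false

/-! The structure theorem with the Bohr set inside an iterated difference set. -/

namespace N173.BR

open Finset H112
open scoped Pointwise

variable {G : Type*} [AddCommGroup G]

/-- the tail condition -/
theorem tail_cond2 {L : ℕ} {κ x : ℝ} (hκ0 : 0 ≤ κ) (hL : κ ≤ 2 ^ L)
    (hx : x ≤ (32 * ((8 * L + 100 : ℕ) : ℝ) + 30) * κ) :
    (1 / 4 : ℝ) ^ (2 ^ (2 * L + 13)) ≤ Real.exp (-x) / 4 := by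
  have hL1 : (1 : ℝ) ≤ 2 ^ L := one_le_pow₀ (by norm_num)
  have h1 : x ≤ 2 ^ 12 * 2 ^ L * 2 ^ L := by
    have h2 : (32 * ((8 * L + 100 : ℕ) : ℝ) + 30) ≤ 2 ^ 12 * 2 ^ L := by
      have := lin_le_pow L 3230
      push_cast at *
      have hL0 : (0 : ℝ) ≤ L := Nat.cast_nonneg L
      nlinarith
    refine hx.trans ?_
    exact mul_le_mul h2 hL hκ0 (by positivity)
  have h2 : x + 2 ≤ 2 ^ (2 * L + 13) := by
    have h3 : (2 : ℝ) ≤ 2 ^ 12 * 2 ^ L * 2 ^ L := by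
      have : (1 : ℝ) ≤ 2 ^ L * 2 ^ L := by nlinarith
      nlinarith
    have h4 : (2 : ℝ) ^ 12 * 2 ^ L * 2 ^ L * 2 = 2 ^ (2 * L + 13) := by ring
    linarith
  have h3 : (1 / 4 : ℝ) ≤ Real.exp (-1) := by
    rw [Real.exp_neg]
    have : Real.exp 1 < 4 := by have := Real.exp_one_lt_d9; linarith
    rw [one_div]
    exact inv_anti₀ (Real.exp_pos 1) this.le
  calc (1 / 4 : ℝ) ^ (2 ^ (2 * L + 13)) ≤ Real.exp (-1) ^ (2 ^ (2 * L + 13)) :=
        pow_le_pow_left₀ (by norm_num) h3 _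
    _ = Real.exp (-(2 : ℝ) ^ (2 * L + 13)) := by
        rw [← Real.exp_nat_mul]; congr 1; push_cast; ring
    _ ≤ Real.exp (-(x + 2)) := Real.exp_le_exp.2 (by linarith)
    _ = Real.exp (-x) * Real.exp (-2) := by rw [← Real.exp_add]; congr 1; ring
    _ ≤ Real.exp (-x) / 4 := by
        have h5 : Real.exp (-2) ≤ 1 / 4 := by
          rw [Real.exp_neg, one_div]
          apply inv_anti₀ (by norm_num)
          have : (2 : ℝ) ≤ Real.exp 1 := by have := Real.exp_one_gt_d9; linarith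
          have h6 : Real.exp 2 = Real.exp 1 * Real.exp 1 := by rw [← Real.exp_add]; norm_num
          nlinarith
        have := Real.exp_pos (-x)
        nlinarith

/-- all the structure extracted from the set, before optimising parameters -/
theorem core2 [AddGroup.FG G] [DecidableEq G] {K : ℝ} {A : Finset G} (hA : A.Nonempty)
    (hK : ((A + A).card : ℝ) ≤ K * A.card) (hK1 : 1 ≤ K) (j j' : ℕ) (hjj : j' ≤ j) {κ b D ε : ℝ}
    (hκ : κ = Real.log (2 * K)) (hb : b = 12 * (j + 1) * κ) (hD : D = 2 * (2 * j + 1) * κ)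
    (hε : ε = 6 * (j + 2) * κ / 2 ^ j) (hρ : 4 * Real.sqrt ε ≤ 1 / 12)
    (h4 : (1 / 4 : ℝ) ^ (2 ^ j') ≤ Real.exp (-(2 * b + 2 * Real.log K + 2 * D)) / 4) :
    ∃ (S : Set (G →+ UnitAddCircle)) (X : Finset G),
      (bohr S (1 / 6)).Finite ∧
      ((bohr S (1 / 6)).ncard : ℝ) ≤ (8 * Real.exp (2 * b + 2 * Real.log K + 2 * D)) * A.card ∧
      (∀ a ∈ A, ∃ x ∈ X, a - x ∈ bohr S (4 * Real.sqrt ε)) ∧
      (X.card : ℝ) ≤ K * Real.exp (2 * D + 1) ∧
      (A.card : ℝ) * Real.exp (-(2 * D + 1)) ≤ (bohr S (4 * Real.sqrt ε)).ncard ∧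
      ∀ x ∈ bohr S (1 / 6), Df A (1 + 2 ^ j' * (2 ^ j * (1 + 1))) x := by
  classical
  have hκ0 : 0 ≤ κ := by
    rw [hκ]; exact Real.log_nonneg (by linarith)
  obtain ⟨p₁, p₂, hp₁, hp₂, hs₁, hs₂, hH₁, hH₂, hgrow⟩ :=
    exists_good_pair hA hK (J := 2 * j + 1) (by omega)
  set q := p₁ * p₂ with hq
  have hqlaw : Law q := hp₁.mul hp₂
  rw [← hκ] at hH₁ hH₂ hgrow
  have hD₁ : Real.log A.card - D ≤ H p₁ := by
    refine le_trans (le_of_eq ?_) hH₁
    rw [hD]; push_cast; ring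
  have hn1 : 1 ≤ 2 ^ j := Nat.one_le_two_pow
  have hm1 : 1 ≤ 2 ^ j' := Nat.one_le_two_pow
  -- growth bound at 2^(j+j'+1)
  have hg1 : H (q ^ (2 * 2 ^ j' * 2 ^ j)) ≤ (H p₁ + H p₂) / 2 + b := by
    have e1 : 2 * 2 ^ j' * 2 ^ j = 2 ^ (j + j' + 1) := by ring
    rw [e1]
    refine (hgrow (j + j' + 1) (by omega)).trans ?_
    rw [hb]
    have hjj' : (j' : ℝ) ≤ j := by exact_mod_cast hjj
    push_cast
    have h0 : (j : ℝ) * κ ≥ j' * κ := mul_le_mul_of_nonneg_right hjj' hκ0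
    nlinarith
  have hsz := bohr_size2 hA hK hp₁ hp₂ hs₁ hs₂ hD₁ (n := 2 ^ j) (m := 2 ^ j') hn1 hm1
    (b := b) hg1 h4
  -- near invariance
  have hinc : H (q ^ (2 ^ j + 1)) - H q ≤ ((2 ^ j : ℕ) : ℝ) * ε := by
    have h1 : H (q ^ (2 ^ j + 1)) ≤ H (q ^ (2 ^ (j + 1))) := by
      have e1 : q ^ (2 ^ (j + 1)) = q ^ (2 ^ j + 1) * q ^ (2 ^ j - 1) := by
        rw [← pow_add]; congr 1
        have : 2 ^ (j + 1) = 2 ^ j + 2 ^ j := by ring
        omega
      rw [e1]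
      exact H_le_mul (hqlaw.pow _) (hqlaw.pow _)
    have h2 := hgrow (j + 1) (by omega)
    have h3 : (H p₁ + H p₂) / 2 ≤ H q := by
      have a1 : H p₁ ≤ H q := H_le_mul hp₁ hp₂
      have a2 : H p₂ ≤ H q := by
        rw [hq, mul_comm]; exact H_le_mul hp₂ hp₁
      linarith
    have h4' : ((2 ^ j : ℕ) : ℝ) * ε = 6 * (j + 2) * κ := by
      rw [hε]; push_cast
      field_simp
    rw [h4']
    push_cast at h2
    nlinarith
  obtain ⟨E, hEA, hEcard, hE⟩ := near_invariance hp₁ hp₂ hs₁ hn1 hD₁ hinc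
  rw [← hq] at hE
  set S : Set (G →+ UnitAddCircle) := {γ | 1 / 2 ≤ ‖ft (q ^ 2 ^ j) γ‖} with hS
  have hApos : (0 : ℝ) < A.card := by exact_mod_cast hA.card_pos
  have hEpos : (0 : ℝ) < E.card := lt_of_lt_of_le (by positivity) hEcard
  have hEne : E.Nonempty := by
    rw [← Finset.card_pos]; exact_mod_cast hEpos
  -- E - E inside the Bohr set
  have hEE : ∀ x ∈ E, ∀ y ∈ E, x - y ∈ bohr S (4 * Real.sqrt ε) := by
    intro x hx y hy γ hγ
    exact hE x hx y hy γ hγ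
  -- covering
  have hcov : ((A + E).card : ℝ) ≤ (K * Real.exp (2 * D + 1)) * E.card := by
    have h1 : ((A + E).card : ℝ) ≤ (A + A).card := by
      exact_mod_cast Finset.card_le_card (Finset.add_subset_add_left hEA)
    have h2 : (A.card : ℝ) ≤ Real.exp (2 * D + 1) * E.card := by
      have h3 : (A.card : ℝ) = Real.exp (2 * D + 1) * (A.card * Real.exp (-(2 * D + 1))) := by
        rw [Real.exp_neg]; field_simp
      rw [h3]
      exact mul_le_mul_of_nonneg_left hEcard (Real.exp_pos _).le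
    calc ((A + E).card : ℝ) ≤ K * A.card := h1.trans hK
      _ ≤ K * (Real.exp (2 * D + 1) * E.card) := mul_le_mul_of_nonneg_left h2 (by linarith)
      _ = _ := by ring
  obtain ⟨X, hXA, hXcard, hX⟩ := Finset.ruzsa_covering_add hEne hcov
  refine ⟨S, X, hsz.1, ?_, ?_, hXcard, ?_, hsz.2.2⟩
  · refine hsz.2.1.trans (le_of_eq ?_)
    ring
  · intro a ha
    obtain ⟨x, hx, y, hy, hxy⟩ := Finset.mem_add.1 (hX ha)
    obtain ⟨u, hu, v, hv, huv⟩ := Finset.mem_sub.1 hy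
    refine ⟨x, hx, ?_⟩
    have : a - x = u - v := by rw [← hxy, ← huv]; abel
    rw [this]
    exact hEE u hu v hv
  · refine hEcard.trans ?_
    obtain ⟨e, he⟩ := hEne
    have hfinρ : (bohr S (4 * Real.sqrt ε)).Finite :=
      hsz.1.subset (main_bohr_mono (hρ.trans (by norm_num)))
    have : (E.card : ℝ) ≤ (bohr S (4 * Real.sqrt ε)).ncard := by
      have h1 : (E.image fun x => x - e).card = E.card :=
        Finset.card_image_of_injective _ (sub_left_injective)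
      have h2 : (((E.image fun x => x - e) : Finset G) : Set G).ncard ≤
          (bohr S (4 * Real.sqrt ε)).ncard := by
        refine Set.ncard_le_ncard ?_ hfinρ
        intro z hz
        rw [Finset.coe_image] at hz
        obtain ⟨x, hx, rfl⟩ := hz
        exact hEE x hx e he
      rw [Set.ncard_coe_finset, h1] at h2
      exact_mod_cast h2
    exact this

/-- the structure theorem: all hypotheses of the final geometric steps, with good bounds. -/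
theorem structure_thm2 [AddGroup.FG G] [DecidableEq G] {K : ℝ} {A : Finset G} (hA : A.Nonempty)
    (hK : ((A + A).card : ℝ) ≤ K * A.card) (hK1 : 1 ≤ K) {κ : ℝ} (hκ : κ = Real.log (2 * K)) :
    ∃ (S : Set (G →+ UnitAddCircle)) (X : Finset G) (V ρ : ℝ) (m : ℕ)
      (N : Seminorm ℝ (Fin m → ℝ)) (ψ : (Fin m → ℤ) →+ G),
      (bohr S (1 / 6)).Finite ∧ 1 ≤ V ∧ ((bohr S (1 / 6)).ncard : ℝ) ≤ V * A.card ∧
      0 < ρ ∧ ρ ≤ 1 / 12 ∧ (∀ a ∈ A, ∃ x ∈ X, a - x ∈ bohr S ρ) ∧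
      (∀ x, N x = 0 → x = 0) ∧
      (∀ c : Fin m → ℤ, N (fun i => (c i : ℝ)) < 1 / 2 → ∀ r : ℝ, 0 ≤ r →
        (ψ c ∈ bohr S r ↔ c ∈ LL N r)) ∧
      (∀ x ∈ bohr S ρ, ∃ c ∈ LL N ρ, x - ψ c ∈ ann S) ∧
      (m : ℝ) ≤ 300 * κ ∧
      (X.card : ℝ) * V ≤ Real.exp (8000 * κ * (1 + Real.log (1 + κ))) ∧
      (1 + κ) ^ 3 * ρ ≤ 1 / 6 ∧
      (A.card : ℝ) ≤ Real.exp (8000 * κ * (1 + Real.log (1 + κ))) * (bohr S ρ).ncard ∧
      ∃ k : ℕ, (k : ℝ) ≤ 2 ^ 125 * (1 + κ) ^ 10 ∧ ∀ x ∈ bohr S (1 / 6), Df A k x := by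
  classical
  have hK0 : (0 : ℝ) < K := by linarith
  have hκlog2 : Real.log 2 ≤ κ := by
    rw [hκ]; exact Real.log_le_log (by norm_num) (by linarith)
  have hκ69 : (0.69 : ℝ) < κ := lt_of_lt_of_le log_two_gt hκlog2
  have hκ0 : 0 < κ := by linarith
  have hlogK : Real.log K ≤ κ := by
    rw [hκ]; exact Real.log_le_log hK0 (by linarith)
  have hlogK0 : 0 ≤ Real.log K := Real.log_nonneg hK1
  obtain ⟨n, hn1, hn2⟩ := exists_nat_pow_near (show (1 : ℝ) ≤ 1 + κ by linarith) (one_lt_two)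
  obtain ⟨L, hLdef⟩ : ∃ L : ℕ, L = n + 1 := ⟨_, rfl⟩
  have hL : κ ≤ 2 ^ L := by rw [hLdef]; linarith
  have hL' : (2 : ℝ) ^ L ≤ 2 * (1 + κ) := by rw [hLdef, pow_succ]; linarith
  obtain ⟨j, hj⟩ : ∃ j : ℕ, j = 8 * L + 100 := ⟨_, rfl⟩
  obtain ⟨b, hb⟩ : ∃ b : ℝ, b = 12 * (j + 1) * κ := ⟨_, rfl⟩
  obtain ⟨D, hD⟩ : ∃ D : ℝ, D = 2 * (2 * j + 1) * κ := ⟨_, rfl⟩
  obtain ⟨ε, hε⟩ : ∃ ε : ℝ, ε = 6 * (j + 2) * κ / 2 ^ j := ⟨_, rfl⟩
  have hε0 : 0 < ε := by rw [hε]; positivity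
  have hρle : 4 * Real.sqrt ε ≤ 1 / 2 ^ (3 * L + 43) :=
    sqrt_eps_le hκ0.le hL (by rw [hε, hj])
  have hρ12 : 4 * Real.sqrt ε ≤ 1 / 12 := by
    refine hρle.trans ?_
    apply one_div_le_one_div_of_le (by norm_num)
    calc (12 : ℝ) ≤ 2 ^ 4 := by norm_num
      _ ≤ 2 ^ (3 * L + 43) := pow_le_pow_right₀ (by norm_num) (by omega)
  have hexp : 2 * b + 2 * Real.log K + 2 * D ≤ (32 * (j : ℝ) + 30) * κ :=
    exp_arg1 hκ69 hb hD hlogK
  obtain ⟨j', hj'⟩ : ∃ j' : ℕ, j' = 2 * L + 13 := ⟨_, rfl⟩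
  have hjj : j' ≤ j := by omega
  have h4 : (1 / 4 : ℝ) ^ (2 ^ j') ≤ Real.exp (-(2 * b + 2 * Real.log K + 2 * D)) / 4 := by
    rw [hj']
    apply tail_cond2 hκ0.le hL
    rw [← hj]; exact hexp
  obtain ⟨S, X, hfin, hsize, hX, hXcard, hlow, hDf⟩ :=
    core2 hA hK hK1 j j' hjj hκ hb hD hε hρ12 h4
  set V : ℝ := 8 * Real.exp (2 * b + 2 * Real.log K + 2 * D) with hV
  set ρ : ℝ := 4 * Real.sqrt ε with hρdef
  have hρ0 : 0 < ρ := by rw [hρdef]; positivity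
  obtain ⟨m, N, ψ, hN, h1, h2, hspan⟩ := lattice_repr S hfin hρ0.le (by linarith : ρ ≤ 1 / 6)
  have hb0 : 0 ≤ b := by rw [hb]; positivity
  have hD0 : 0 ≤ D := by rw [hD]; positivity
  have hV1 : 1 ≤ V := by
    have : 1 ≤ Real.exp (2 * b + 2 * Real.log K + 2 * D) := Real.one_le_exp (by positivity)
    rw [hV]; linarith
  have hApos : (0 : ℝ) < A.card := by exact_mod_cast hA.card_pos
  have h8 : (8 : ℝ) ≤ Real.exp (4 * κ) := by
    have h5 : Real.exp (4 * Real.log 2) ≤ Real.exp (4 * κ) := Real.exp_le_exp.2 (by linarith)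
    have h6 : Real.exp (4 * Real.log 2) = 16 := by
      rw [show (4 : ℝ) * Real.log 2 = (4 : ℕ) * Real.log 2 by norm_num, Real.exp_nat_mul,
        Real.exp_log (by norm_num)]
      norm_num
    linarith
  have he1 : Real.exp 1 ≤ Real.exp (2 * κ) := Real.exp_le_exp.2 (by linarith)
  -- the dimension bound
  have hdim : (m : ℝ) ≤ 300 * κ := by
    by_contra hcon
    push Not at hcon
    obtain ⟨M, hMdef⟩ : ∃ M : ℕ, M = ⌈300 * κ⌉₊ := ⟨_, rfl⟩
    have hMm : M ≤ m := by rw [hMdef]; exact Nat.ceil_le.2 hcon.le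
    have hMlow : 300 * κ ≤ M := by rw [hMdef]; exact Nat.le_ceil _
    have hMup : (M : ℝ) ≤ 300 * κ + 1 := by
      rw [hMdef]; exact (Nat.ceil_lt_add_one (by positivity)).le
    obtain ⟨t, ht⟩ : ∃ t : ℕ, t + 1 = 2 ^ (2 * L + 20) :=
      ⟨2 ^ (2 * L + 20) - 1, Nat.sub_add_cancel Nat.one_le_two_pow⟩
    have ht' : (t : ℝ) + 1 = 2 ^ (2 * L + 20) := by exact_mod_cast ht
    have hRr : (3 * (M : ℝ) * t + 1) * ρ ≤ 1 / 6 := radius_ok hρ0.le hL hMup ht' hρle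
    have h7 : ((t : ℝ) + 1) ^ M ≤ V * Real.exp (2 * D + 1) :=
      dim_aux hfin hN hApos h1 h2 hspan hρ0 hρ12 hMm hRr hlow hsize
    apply dim_contra (L := L) (M := M) hκ0 hMlow
    rw [← ht']
    refine h7.trans ?_
    rw [← hj]
    calc V * Real.exp (2 * D + 1)
        ≤ (Real.exp (4 * κ) * Real.exp (2 * b + 2 * Real.log K + 2 * D)) *
            (Real.exp (2 * D) * Real.exp (2 * κ)) := by
          rw [hV, Real.exp_add (2 * D) 1]
          gcongr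
      _ = Real.exp (4 * κ + (2 * b + 2 * Real.log K + 2 * D) + (2 * D + 2 * κ)) := by
          rw [← Real.exp_add, ← Real.exp_add, ← Real.exp_add]
      _ ≤ Real.exp (40 * (j + 1) * κ) := Real.exp_le_exp.2 (exp_arg2 hκ69 hb hD hlogK)
  refine ⟨S, X, V, ρ, m, N, ψ, hfin, hV1, hsize, hρ0, hρ12, hX, hN, h1, h2, hdim, ?_, ?_, ?_,
    1 + 2 ^ j' * (2 ^ j * (1 + 1)), ?_, hDf⟩
  rotate_left
  · -- the dilate
    have h10 : (1 + κ) ^ 3 ≤ 2 ^ (3 * L + 3) := by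
      have h11 : 1 + κ ≤ 2 ^ (L + 1) := by
        have : (1 : ℝ) ≤ 2 ^ L := one_le_pow₀ (by norm_num)
        rw [pow_succ]; linarith
      calc (1 + κ) ^ 3 ≤ ((2 : ℝ) ^ (L + 1)) ^ 3 := pow_le_pow_left₀ (by linarith) h11 3
        _ = 2 ^ (3 * L + 3) := by rw [← pow_mul]; congr 1; ring
    have h12 : (0 : ℝ) < 2 ^ (3 * L + 3) := by positivity
    calc (1 + κ) ^ 3 * ρ ≤ 2 ^ (3 * L + 3) * (1 / 2 ^ (3 * L + 43)) :=
          mul_le_mul h10 hρle hρ0.le h12.le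
      _ = 1 / 2 ^ 40 := by
          have : (2 : ℝ) ^ (3 * L + 43) = 2 ^ (3 * L + 3) * 2 ^ 40 := by
            rw [← pow_add]
          rw [this]; field_simp
      _ ≤ 1 / 6 := by norm_num
  · -- lower bound for the size
    have h13 : Real.exp (2 * D + 1) ≤ Real.exp (8000 * κ * (1 + Real.log (1 + κ))) := by
      refine le_trans ?_ (Real.exp_le_exp.2 (exp_arg3 hκ69 hb hD hlogK hj hL'))
      have h17 : (1 : ℝ) ≤ 2 * κ := by linarith
      have h18 : 0 ≤ b := hb0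
      exact Real.exp_le_exp.2 (by linarith)
    have h14 : (A.card : ℝ) = Real.exp (2 * D + 1) * (A.card * Real.exp (-(2 * D + 1))) := by
      have h16 : Real.exp (2 * D + 1) * Real.exp (-(2 * D + 1)) = 1 := by
        rw [← Real.exp_add, add_neg_cancel, Real.exp_zero]
      calc (A.card : ℝ) = A.card * (Real.exp (2 * D + 1) * Real.exp (-(2 * D + 1))) := by
            rw [h16, mul_one]
        _ = _ := by ring
    rw [h14]
    exact mul_le_mul h13 hlow (mul_nonneg hApos.le (Real.exp_pos _).le) (Real.exp_pos _).le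
  · -- the number of summands
    have h15 : ((1 + 2 ^ j' * (2 ^ j * (1 + 1)) : ℕ) : ℝ) ≤ 2 ^ (10 * L + 115) := by
      push_cast
      have e1 : (2 : ℝ) ^ j' * (2 ^ j * 2) = 2 ^ (10 * L + 114) := by
        rw [hj, hj', ← pow_succ, ← pow_add]; congr 1; ring
      rw [e1]
      have e2 : (2 : ℝ) ^ (10 * L + 115) = 2 * 2 ^ (10 * L + 114) := by ring
      have : (1 : ℝ) ≤ 2 ^ (10 * L + 114) := one_le_pow₀ (by norm_num)
      linarith
    refine h15.trans ?_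
    calc (2 : ℝ) ^ (10 * L + 115) = 2 ^ 115 * (2 ^ L) ^ 10 := by
          rw [← pow_mul, ← pow_add]; congr 1; ring
      _ ≤ 2 ^ 115 * (2 * (1 + κ)) ^ 10 :=
          mul_le_mul_of_nonneg_left (pow_le_pow_left₀ (by positivity) hL' 10) (by positivity)
      _ = 2 ^ 125 * (1 + κ) ^ 10 := by rw [mul_pow]; ring
  -- final numeric bound
  calc (X.card : ℝ) * V ≤ (K * Real.exp (2 * D + 1)) * V :=
        mul_le_mul_of_nonneg_right hXcard (by linarith)
    _ ≤ (Real.exp κ * (Real.exp (2 * D) * Real.exp (2 * κ))) *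
          (Real.exp (4 * κ) * Real.exp (2 * b + 2 * Real.log K + 2 * D)) := by
        rw [hV, Real.exp_add (2 * D) 1]
        have hKe : K ≤ Real.exp κ := by
          rw [hκ, Real.exp_log (by linarith)]; linarith
        gcongr
    _ = Real.exp (κ + (2 * D + 2 * κ) + (4 * κ + (2 * b + 2 * Real.log K + 2 * D))) := by
        rw [← Real.exp_add, ← Real.exp_add, ← Real.exp_add, ← Real.exp_add]
    _ ≤ Real.exp (8000 * κ * (1 + Real.log (1 + κ))) :=
        Real.exp_le_exp.2 (exp_arg3 hκ69 hb hD hlogK hj hL')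

end N173.BR
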