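import Pool.Agent.N173.BR.Core
set_option autoImplicit false

/-! Near-polynomial Bogolyubov-Ruzsa theorem for polylogarithmically iterated difference sets. -/

namespace N173.BR

open Finset H112
open scoped Pointwise

/-- the statement about a finite subset `A` of an abelian group -/
def Concl {G : Type*} [AddCommGroup G] (K : ℝ) (A : Finset G) : Prop :=
  ∃ (k d : ℕ) (B : Set (Fin d → ℝ)) (ψ : (Fin d → ℤ) →+ G) (H₀ : AddSubgroup G) (T : Finset G),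
    (k : ℝ) ≤ 2 ^ 125 * (1 + Real.log (2 * K)) ^ 10 ∧
    (d : ℝ) ≤ 300 * Real.log (2 * K) ∧
    SymmBody B ∧ Finite H₀ ∧
    (∀ c : Fin d → ℤ, (fun i => (c i : ℝ) / (1 + Real.log (2 * K)) ^ 3) ∈ B → ∀ h ∈ H₀,
      Df A k (ψ c + h)) ∧
    (∀ c c' : Fin d → ℤ, (fun i => (c i : ℝ) / (1 + Real.log (2 * K)) ^ 3) ∈ B →
      (fun i => (c' i : ℝ) / (1 + Real.log (2 * K)) ^ 3) ∈ B → ∀ h ∈ H₀, ∀ h' ∈ H₀,
      ψ c + h = ψ c' + h' → c = c' ∧ h = h') ∧
    {c : Fin d → ℤ | (fun i => (c i : ℝ) / (1 + Real.log (2 * K)) ^ 3) ∈ B}.Finite ∧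
    (({c : Fin d → ℤ | (fun i => (c i : ℝ) / (1 + Real.log (2 * K)) ^ 3) ∈ B}.ncard *
      Nat.card H₀ : ℕ) : ℝ) ≤
        (2 * K) ^ (8000 * (1 + Real.log (1 + Real.log (2 * K)))) * A.card ∧
    (A.card : ℝ) ≤ (2 * K) ^ (8000 * (1 + Real.log (1 + Real.log (2 * K)))) *
      (({c : Fin d → ℤ | (fun i => (c i : ℝ)) ∈ B}.ncard * Nat.card H₀ : ℕ) : ℝ) ∧
    (T.card : ℝ) ≤ (2 * K) ^ (8000 * (1 + Real.log (1 + Real.log (2 * K)))) ∧
    Covers B ψ H₀ T A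

theorem inj_aux {G : Type*} [AddCommGroup G] {S : Set (G →+ UnitAddCircle)}
    {m : ℕ} {N : Seminorm ℝ (Fin m → ℝ)} {ψ : (Fin m → ℤ) →+ G} (hN : ∀ x, N x = 0 → x = 0)
    (h1 : ∀ c : Fin m → ℤ, N (fun i => (c i : ℝ)) < 1 / 2 → ∀ r : ℝ, 0 ≤ r →
        (ψ c ∈ bohr S r ↔ c ∈ LL N r)) {R : ℝ} (hR : R ≤ 1 / 6)
    {c c' : Fin m → ℤ} (hc : c ∈ LL N R) (hc' : c' ∈ LL N R) {h h' : G} (hh : h ∈ ann S)
    (hh' : h' ∈ ann S) (heq : ψ c + h = ψ c' + h') : c = c' ∧ h = h' := by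
  have hd : c - c' ∈ LL N (R + R) := LL_add N hc hc'
  have hd2 : N (fun i => (((c - c') i : ℤ) : ℝ)) < 1 / 2 := by
    have : N (fun i => (((c - c') i : ℤ) : ℝ)) ≤ R + R := hd
    linarith
  have hd3 : ψ (c - c') ∈ ann S := by
    rw [map_sub]
    have : ψ c - ψ c' = h' - h := by
      rw [sub_eq_sub_iff_add_eq_add, add_comm h' _]
      simpa [add_comm] using heq
    rw [this]
    exact (ann S).sub_mem hh' hh
  have hd4 : c - c' ∈ LL N 0 :=
    (h1 _ hd2 0 le_rfl).1 (bohr_zero_of_ann hd3 le_rfl)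
  have hd5 : c = c' := sub_eq_zero.1 (LL_zero hN hd4)
  subst hd5
  simp only [add_right_inj] at heq
  exact ⟨rfl, heq⟩

/-- the theorem for finitely generated groups -/
theorem br_fg {G : Type*} [AddCommGroup G] [AddGroup.FG G] [DecidableEq G] {K : ℝ}
    {A : Finset G} (hA : A.Nonempty) (hK : ((A + A).card : ℝ) ≤ K * A.card) (hK1 : 1 ≤ K) :
    Concl K A := by
  classical
  obtain ⟨κ, hκ⟩ : ∃ κ : ℝ, κ = Real.log (2 * K) := ⟨_, rfl⟩
  have hκlog2 : Real.log 2 ≤ κ := by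
    rw [hκ]; exact Real.log_le_log (by norm_num) (by linarith)
  have hκ69 : (0.69 : ℝ) < κ := lt_of_lt_of_le log_two_gt hκlog2
  have hlogκ : 0 ≤ Real.log (1 + κ) := Real.log_nonneg (by linarith)
  obtain ⟨S, X, V, ρ, m, N, ψ, hfin, hV1, hsize, hρ0, hρ12, hX, hN, h1, h2, hm, hXV, hMρ,
    hlow, k, hk, hDf⟩ := structure_thm2 hA hK hK1 hκ
  haveI := ann_finite hfin
  have hM0 : 0 < (1 + κ) ^ 3 := by positivity
  have hMR0 : 0 ≤ (1 + κ) ^ 3 * ρ := by positivity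
  have hin : ∀ c : Fin m → ℤ,
      ((fun i => (c i : ℝ) / (1 + κ) ^ 3) ∈ {x : Fin m → ℝ | N x ≤ ρ} ↔
        c ∈ LL N ((1 + κ) ^ 3 * ρ)) := by
    intro c
    have e1 : (fun i => (c i : ℝ) / (1 + κ) ^ 3) =
        ((1 + κ) ^ 3)⁻¹ • (fun i => (c i : ℝ)) := by
      funext i
      rw [Pi.smul_apply, smul_eq_mul, div_eq_inv_mul]
    change N _ ≤ ρ ↔ N _ ≤ _
    rw [e1, map_smul_eq_mul, Real.norm_eq_abs, abs_of_pos (by positivity),
      inv_mul_le_iff₀ hM0]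
  obtain ⟨hfinL, hcardL⟩ := card_LL_le hfin hN h1 hMR0 hMρ
  have hLfin : (LL N ρ).Finite := (card_LL_le hfin hN h1 hρ0.le (by linarith)).1
  have hbl := card_bohr_le hfin hLfin h2
  have hX0 : (1 : ℝ) ≤ X.card := by
    obtain ⟨a, ha⟩ := hA
    obtain ⟨x, hx, _⟩ := hX a ha
    exact_mod_cast Finset.card_pos.2 ⟨x, hx⟩
  have hVle : V ≤ Real.exp (8000 * κ * (1 + Real.log (1 + κ))) := by
    refine le_trans ?_ hXV
    nlinarith
  have hXle : (X.card : ℝ) ≤ Real.exp (8000 * κ * (1 + Real.log (1 + κ))) := by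
    refine le_trans ?_ hXV
    nlinarith
  unfold Concl
  rw [← exp_eq_rpow hK1, ← hκ]
  refine ⟨k, m, {x | N x ≤ ρ}, ψ, ann S, X, hk, hm, symmBody_ball N hN hρ0, inferInstance,
    ?_, ?_, ?_, ?_, ?_, hXle, ?_⟩
  · intro c hc h hh
    have hc2 : N (fun i => (c i : ℝ)) ≤ (1 + κ) ^ 3 * ρ := (hin c).1 hc
    apply hDf
    exact bohr_add_ann ((h1 c (by linarith) (1 / 6) (by norm_num)).2
      (show N (fun i => (c i : ℝ)) ≤ 1 / 6 from hc2.trans hMρ)) hh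
  · intro c c' hc hc' h hh h' hh' heq
    exact inj_aux hN h1 hMρ ((hin c).1 hc) ((hin c').1 hc') hh hh' heq
  · refine hfinL.subset ?_
    intro c hc
    exact (hin c).1 hc
  · have e2 : {c : Fin m → ℤ | (fun i => (c i : ℝ) / (1 + κ) ^ 3) ∈ {x | N x ≤ ρ}} =
        LL N ((1 + κ) ^ 3 * ρ) := by
      ext c
      exact hin c
    rw [e2]
    calc (((LL N ((1 + κ) ^ 3 * ρ)).ncard * Nat.card (ann S) : ℕ) : ℝ)
        ≤ ((bohr S (1 / 6)).ncard : ℝ) := by exact_mod_cast hcardL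
      _ ≤ V * A.card := hsize
      _ ≤ _ := mul_le_mul_of_nonneg_right hVle (Nat.cast_nonneg _)
  · refine hlow.trans ?_
    refine mul_le_mul_of_nonneg_left ?_ (Real.exp_pos _).le
    have e3 : {c : Fin m → ℤ | (fun i => (c i : ℝ)) ∈ {x | N x ≤ ρ}} = LL N ρ := rfl
    rw [e3]
    exact_mod_cast hbl
  · intro a ha
    obtain ⟨x, hx, hax⟩ := hX a ha
    obtain ⟨c, hc, hc2⟩ := h2 _ hax
    refine ⟨x, hx, c, hc, a - x - ψ c, hc2, ?_⟩
    abel

/-- **Near-polynomial Bogolyubov-Ruzsa theorem for iterated difference sets.** -/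
theorem br {G : Type*} [AddCommGroup G] [DecidableEq G] {K : ℝ}
    {A : Finset G} (hA : A.Nonempty) (hK : ((A + A).card : ℝ) ≤ K * A.card) : Concl K A := by
  classical
  have hApos : (0 : ℝ) < A.card := by exact_mod_cast hA.card_pos
  have hK1 : 1 ≤ K := by
    have h1 : (A.card : ℝ) ≤ (A + A).card := by
      exact_mod_cast Finset.card_le_card_add_right hA
    nlinarith
  obtain ⟨Γ, hΓ⟩ : ∃ Γ : AddSubgroup G, Γ = AddSubgroup.closure (A : Set G) := ⟨_, rfl⟩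
  obtain ⟨A', hA'⟩ := exists_model A Γ (fun a ha => by
    rw [hΓ]; exact AddSubgroup.subset_closure ha)
  have hinj : Function.Injective Γ.subtype := Γ.subtype_injective
  haveI : AddGroup.FG Γ := by
    rw [AddGroup.fg_iff_addSubgroup_fg]
    exact ⟨A, hΓ.symm⟩
  have hA'ne : A'.Nonempty := by
    rw [← hA'] at hA; exact Finset.image_nonempty.1 hA
  have hcard : A'.card = A.card := by
    rw [← hA', Finset.card_image_of_injective _ hinj]
  have hcard2 : (A' + A').card = (A + A).card := by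
    rw [← hA', ← Finset.image_add, Finset.card_image_of_injective _ hinj]
  have hK' : ((A' + A').card : ℝ) ≤ K * A'.card := by rw [hcard2, hcard]; exact hK
  have hSm : ∀ (k : ℕ) (u : Γ), Sm A' k u → Sm A k (Γ.subtype u) := by
    rintro k u ⟨f, hf, rfl⟩
    refine ⟨fun i => Γ.subtype (f i), fun i => ?_, ?_⟩
    · rw [← hA']; exact Finset.mem_image_of_mem _ (hf i)
    · rw [map_sum]
  obtain ⟨k, d, B, ψ, H₀, T, hk, hd, hB, hH₀, hsub, hprop, hfin, hup, hlo, hT, hcov⟩ :=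
    br_fg hA'ne hK' hK1
  have hcardH : Nat.card (H₀.map Γ.subtype) = Nat.card H₀ :=
    Nat.card_congr (H₀.equivMapOfInjective Γ.subtype hinj).toEquiv.symm
  refine ⟨k, d, B, Γ.subtype.comp ψ, H₀.map Γ.subtype, T.image Γ.subtype, hk, hd, hB,
    ?_, ?_, ?_, hfin, ?_, ?_, ?_, ?_⟩
  · have : (H₀.map Γ.subtype : Set G).Finite := by
      rw [AddSubgroup.coe_map]
      exact (Set.toFinite (H₀ : Set Γ)).image _
    exact this.to_subtype
  · rintro c hc h ⟨h', hh', rfl⟩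
    obtain ⟨u, v, hu, hv, huv⟩ := hsub c hc h' hh'
    refine ⟨Γ.subtype u, Γ.subtype v, hSm k u hu, hSm k v hv, ?_⟩
    rw [← map_sub, ← huv, map_add]
    rfl
  · rintro c c' hc hc' h ⟨h₁, hh₁, rfl⟩ h' ⟨h₂, hh₂, rfl⟩ heq
    have h3 : ψ c + h₁ = ψ c' + h₂ := by
      apply hinj
      rw [map_add, map_add]
      exact heq
    obtain ⟨e1, e2⟩ := hprop c c' hc hc' h₁ hh₁ h₂ hh₂ h3
    exact ⟨e1, by rw [e2]⟩
  · rw [hcardH, ← hcard]; exact hup
  · rw [hcardH, ← hcard]; exact hlo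
  · refine le_trans ?_ hT
    exact_mod_cast Finset.card_image_le
  · intro a ha
    rw [← hA'] at ha
    obtain ⟨a', ha', rfl⟩ := Finset.mem_image.1 ha
    obtain ⟨t, ht, c, hc, h, hh, e⟩ := hcov a' ha'
    refine ⟨Γ.subtype t, Finset.mem_image_of_mem _ ht, c, hc, Γ.subtype h, ⟨h, hh, rfl⟩, ?_⟩
    rw [e, map_add, map_add]
    rfl

end N173.BR
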